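import Pool.Agent.H37.QC.Moll

/-! Module M12 of MP_1fd04d_an: a continuous map whose weak differential is symmetric is a
gradient (helper12). -/

set_option autoImplicit false

namespace Pool.Agent.H56.QC

open MeasureTheory Set Filter Topology Metric
open scoped RealInnerProductSpace ENNReal Convolution

variable {n : ℕ}

namespace SymPot

/-- the 1-form dual to a vector field -/
noncomputable def om (F : E n → E n) (x : E n) : E n →L[ℝ] ℝ := innerSL ℝ (F x)

theorem om_apply (F : E n → E n) (x v : E n) : om F x v = ⟪F x, v⟫ := rfl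

/-- the truncated field -/
noncomputable def trunc (f : E n → E n) (r : ℝ) : E n → E n := (closedBall (0 : E n) r).indicator f

theorem trunc_eq (f : E n → E n) (r : ℝ) {x : E n} (hx : x ∈ closedBall (0 : E n) r) :
    trunc f r x = f x := indicator_of_mem hx f

theorem trunc_integrable (f : E n → E n) (hf : ContinuousOn f (ball 0 1)) (r : ℝ) (hr : r < 1) :
    Integrable (trunc f r) := by
  refine IntegrableOn.integrable_indicator ?_ isClosed_closedBall.measurableSet
  exact (hf.mono (closedBall_subset_ball hr)).integrableOn_compact (isCompact_closedBall 0 r)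

theorem trunc_bound (f : E n → E n) (hf : ContinuousOn f (ball 0 1)) (r : ℝ) (hr : r < 1) :
    ∃ C, 0 ≤ C ∧ ∀ x, ‖trunc f r x‖ ≤ C := by
  obtain ⟨C, hC⟩ := (isCompact_closedBall (0 : E n) r).exists_bound_of_continuousOn
    (hf.mono (closedBall_subset_ball hr))
  refine ⟨max C 0, le_max_right _ _, fun x => ?_⟩
  by_cases hx : x ∈ closedBall (0 : E n) r
  · rw [trunc_eq f r hx]
    exact (hC x hx).trans (le_max_left _ _)
  · unfold trunc
    rw [indicator_of_notMem hx, norm_zero]
    exact le_max_right _ _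

theorem moll_bound (k : ℕ) (F : E n → E n) (C : ℝ) (hC : ∀ x, ‖F x‖ ≤ C) (x : E n) :
    ‖moll k F x‖ ≤ C := by
  unfold moll
  have h1 : ∀ᵐ y : E n, ‖phi n k y • F (x - y)‖ ≤ phi n k y * C := by
    refine Eventually.of_forall fun y => ?_
    rw [norm_smul, Real.norm_of_nonneg (phi_nonneg k y)]
    exact mul_le_mul_of_nonneg_left (hC _) (phi_nonneg k y)
  refine (norm_integral_le_of_norm_le ((phi_integrable k).mul_const C) h1).trans (le_of_eq ?_)
  rw [integral_mul_const, phi_integral, one_mul]

theorem moll_point (F : E n → E n) (hF : LocallyIntegrable F) (x : E n)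
    (hx : ContinuousAt F x) : Tendsto (fun k => moll k F x) atTop (𝓝 (F x)) := by
  have hrad : Tendsto (fun k : ℕ => 1 / ((k : ℝ) + 1)) atTop (𝓝 0) :=
    tendsto_one_div_add_atTop_nhds_zero_nat
  have h := ContDiffBump.convolution_tendsto_right (φ := fun k => bump n k) (l := atTop)
    (g := fun _ : ℕ => F) (k := fun _ => x) (x₀ := x) (z₀ := F x) (μ := volume) hrad
    (Eventually.of_forall fun _ => hF.aestronglyMeasurable)
    (by
      have : Function.uncurry (fun _ : ℕ => F) = F ∘ Prod.snd := rfl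
      rw [this]
      exact hx.tendsto.comp tendsto_snd)
    tendsto_const_nhds
  exact h

theorem weakDiff_trunc (f : E n → E n) (hf : ContinuousOn f (ball 0 1))
    (G : E n → E n →L[ℝ] E n) (hw : WeakDiff (ball 0 1) f G) (r : ℝ) (hr : r < 1) :
    WeakDiff (ball 0 r) (trunc f r) G := by
  refine ⟨((trunc_integrable f hf r hr).locallyIntegrable).locallyIntegrableOn _,
    hw.2.1.mono_set (ball_subset_ball hr.le), fun φ hφ hφc hφs v => ?_⟩
  rw [← hw.2.2 φ hφ hφc (hφs.trans (ball_subset_ball hr.le)) v]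
  refine integral_congr_ae (Eventually.of_forall fun x => ?_)
  change (fderiv ℝ φ x v) • trunc f r x = (fderiv ℝ φ x v) • f x
  by_cases hx : x ∈ tsupport φ
  · rw [trunc_eq f r (ball_subset_closedBall (hφs hx))]
  · have h0 : fderiv ℝ φ x = 0 := by
      have h1 : x ∉ tsupport (fderiv ℝ φ) := fun h => hx (tsupport_fderiv_subset ℝ h)
      exact image_eq_zero_of_notMem_tsupport h1
    rw [h0]
    simp

/-- the differential of the mollification is symmetric -/
theorem moll_sym (k : ℕ) (F : E n → E n) (hF : LocallyIntegrable F)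
    (G : E n → E n →L[ℝ] E n) (U : Set (E n)) (hU : MeasurableSet U) (hw : WeakDiff U F G)
    (hs : ∀ᵐ x ∂(volume.restrict U), Sym (G x)) (x : E n)
    (hx : closedBall x (1 / ((k : ℝ) + 1)) ⊆ U) : Sym (fderiv ℝ (moll k F) x) := by
  intro v w
  rw [moll_fderiv k U F hF G hw x hx]
  have hi := moll_integrable k G U hw.2.1 x hx
  rw [ContinuousLinearMap.integral_apply hi, ContinuousLinearMap.integral_apply hi]
  have hiv : Integrable (fun y => (phi n k y • G (x - y)) v) := hi.apply_continuousLinearMap v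
  have hiw : Integrable (fun y => (phi n k y • G (x - y)) w) := hi.apply_continuousLinearMap w
  rw [real_inner_comm, ← integral_inner hiv w, ← integral_inner hiw v]
  refine integral_congr_ae ?_
  rw [ae_restrict_iff' hU] at hs
  have hs' : ∀ᵐ y : E n, x - y ∈ U → Sym (G (x - y)) := by
    have hq := quasiMeasurePreserving_sub_left_of_right_invariant (volume : Measure (E n)) x
    exact hq.ae hs
  filter_upwards [hs'] with y hy
  by_cases hyb : y ∈ closedBall (0 : E n) (1 / ((k : ℝ) + 1))
  · have h1 : x - y ∈ U := by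
      apply hx
      rw [mem_closedBall, dist_eq_norm]
      rw [mem_closedBall_zero_iff] at hyb
      simpa using hyb
    have h2 := hy h1 v w
    change ⟪w, phi n k y • G (x - y) v⟫ = ⟪v, phi n k y • G (x - y) w⟫
    rw [inner_smul_right, inner_smul_right, real_inner_comm, h2]
  · rw [phi_zero k hyb]
    simp

/-- the line integral over a segment -/
noncomputable def J (F : E n → E n) (a b : E n) : ℝ :=
  ∫ t in (0:ℝ)..1, ⟪F (AffineMap.lineMap a b t), b - a⟫

theorem J_eq (F : E n → E n) (a b : E n) :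
    curveIntegral (om F) (Path.segment a b) = J F a b := curveIntegral_segment (om F) a b

theorem J_add_smooth (F : E n → E n) (s : Set (E n)) (hs : Convex ℝ s)
    (hF : ContDiff ℝ 1 F) (hsym : ∀ x ∈ s, Sym (fderiv ℝ F x)) {a b c : E n} (ha : a ∈ s)
    (hb : b ∈ s) (hc : c ∈ s) : J F a b + J F b c = J F a c := by
  have hd : ∀ x, HasFDerivAt (om F) ((innerSL ℝ : E n →L[ℝ] E n →L[ℝ] ℝ).comp (fderiv ℝ F x)) x := by
    intro x
    exact (innerSL ℝ : E n →L[ℝ] E n →L[ℝ] ℝ).hasFDerivAt.comp x
      ((hF.differentiable (by simp)) x).hasFDerivAt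
  have h := hs.curveIntegral_segment_add_eq_of_hasFDerivWithinAt_symmetric
    (ω := om F) (dω := fun x => (innerSL ℝ : E n →L[ℝ] E n →L[ℝ] ℝ).comp (fderiv ℝ F x))
    (fun x _ => (hd x).hasFDerivWithinAt)
    (fun x hx v _ w _ => by
      change ⟪fderiv ℝ F x v, w⟫ = ⟪fderiv ℝ F x w, v⟫
      rw [hsym x hx v w, real_inner_comm]) ha hb hc
  rw [J_eq, J_eq, J_eq] at h
  exact h

theorem J_tendsto (F : E n → E n) (hF : LocallyIntegrable F) (C : ℝ) (hC : ∀ x, ‖F x‖ ≤ C)
    (s : Set (E n)) (hso : IsOpen s) (hs : Convex ℝ s) (hFc : ContinuousOn F s) {a b : E n}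
    (ha : a ∈ s) (hb : b ∈ s) :
    Tendsto (fun k => J (moll k F) a b) atTop (𝓝 (J F a b)) := by
  unfold J
  refine intervalIntegral.tendsto_integral_filter_of_dominated_convergence
    (fun _ => C * ‖b - a‖) ?_ ?_ ?_ ?_
  · refine Eventually.of_forall fun k => ?_
    have hc : Continuous (moll k F) := (moll_contDiff k F hF).continuous
    exact ((hc.comp AffineMap.lineMap_continuous).inner continuous_const).aestronglyMeasurable
  · refine Eventually.of_forall fun k => Eventually.of_forall fun t _ => ?_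
    refine (norm_inner_le_norm _ _).trans ?_
    exact mul_le_mul_of_nonneg_right (moll_bound k F C hC _) (norm_nonneg _)
  · exact intervalIntegrable_const
  · refine Eventually.of_forall fun t ht => ?_
    rw [uIoc_of_le zero_le_one] at ht
    have hmem : AffineMap.lineMap a b t ∈ s := hs.lineMap_mem ha hb ⟨ht.1.le, ht.2⟩
    have hc : ContinuousAt F (AffineMap.lineMap a b t) := hFc.continuousAt (hso.mem_nhds hmem)
    exact (moll_point F hF _ hc).inner tendsto_const_nhds

theorem J_add (f : E n → E n) (hf : ContinuousOn f (ball 0 1))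
    (G : E n → E n →L[ℝ] E n) (hw : WeakDiff (ball 0 1) f G)
    (hs : ∀ᵐ x ∂(volume.restrict (ball (0 : E n) 1)), Sym (G x)) {a b c : E n}
    (ha : a ∈ ball (0 : E n) 1) (hb : b ∈ ball (0 : E n) 1) (hc : c ∈ ball (0 : E n) 1) :
    J f a b + J f b c = J f a c := by
  rw [mem_ball_zero_iff] at ha hb hc
  set m : ℝ := max ‖a‖ (max ‖b‖ ‖c‖) with hm
  have hm1 : m < 1 := max_lt ha (max_lt hb hc)
  set r : ℝ := m + (1 - m) / 3 with hr
  set r' : ℝ := m + 2 * (1 - m) / 3 with hr'
  have h1 : m < r := by rw [hr]; linarith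
  have h2 : r < r' := by rw [hr, hr']; linarith
  have h3 : r' < 1 := by rw [hr']; linarith
  have ha' : a ∈ ball (0 : E n) r := by
    rw [mem_ball_zero_iff]; exact lt_of_le_of_lt (le_max_left _ _) h1
  have hb' : b ∈ ball (0 : E n) r := by
    rw [mem_ball_zero_iff]
    exact lt_of_le_of_lt ((le_max_left _ _).trans (le_max_right _ _)) h1
  have hc' : c ∈ ball (0 : E n) r := by
    rw [mem_ball_zero_iff]
    exact lt_of_le_of_lt ((le_max_right _ _).trans (le_max_right _ _)) h1
  set F : E n → E n := trunc f r' with hFdef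
  have hFi : LocallyIntegrable F := (trunc_integrable f hf r' h3).locallyIntegrable
  obtain ⟨C, -, hC⟩ := trunc_bound f hf r' h3
  have hFf : ∀ x ∈ ball (0 : E n) r, F x = f x := fun x hx =>
    trunc_eq f r' (ball_subset_closedBall ((ball_subset_ball h2.le) hx))
  have hFc : ContinuousOn F (ball (0 : E n) r) :=
    (hf.mono (ball_subset_ball (h2.trans h3).le)).congr hFf
  have hJ : ∀ {p q : E n}, p ∈ ball (0 : E n) r → q ∈ ball (0 : E n) r → J F p q = J f p q := by
    intro p q hp hq
    unfold J
    refine intervalIntegral.integral_congr fun t ht => ?_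
    rw [uIcc_of_le zero_le_one] at ht
    change ⟪F _, q - p⟫ = ⟪f _, q - p⟫
    rw [hFf _ ((convex_ball (0 : E n) r).lineMap_mem hp hq ht)]
  have hw' := weakDiff_trunc f hf G hw r' h3
  have hs' : ∀ᵐ x ∂(volume.restrict (ball (0 : E n) r')), Sym (G x) :=
    ae_mono (Measure.restrict_mono (ball_subset_ball h3.le) le_rfl) hs
  have hev : ∀ᶠ k : ℕ in atTop, 1 / ((k : ℝ) + 1) < r' - r :=
    tendsto_one_div_add_atTop_nhds_zero_nat.eventually (Iio_mem_nhds (by linarith))
  have hadd : ∀ᶠ k : ℕ in atTop, J (moll k F) a b + J (moll k F) b c = J (moll k F) a c := by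
    filter_upwards [hev] with k hk
    refine J_add_smooth (moll k F) (ball (0 : E n) r) (convex_ball _ _)
      ((moll_contDiff k F hFi).of_le (by exact_mod_cast le_top)) ?_ ha' hb' hc'
    intro x hx
    refine moll_sym k F hFi G (ball (0 : E n) r') isOpen_ball.measurableSet hw' hs' x ?_
    intro y hy
    rw [mem_closedBall, dist_eq_norm] at hy
    rw [mem_ball_zero_iff] at hx ⊢
    have h5 : y = (y - x) + x := by abel
    calc ‖y‖ = ‖(y - x) + x‖ := by rw [← h5]
      _ ≤ ‖y - x‖ + ‖x‖ := norm_add_le _ _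
      _ < r' := by linarith
  have hT := fun {p q : E n} (hp : p ∈ ball (0 : E n) r) (hq : q ∈ ball (0 : E n) r) =>
    J_tendsto F hFi C hC (ball (0 : E n) r) isOpen_ball (convex_ball _ _) hFc hp hq
  have hL := (hT ha' hb').add (hT hb' hc')
  have hR := hT ha' hc'
  have := tendsto_nhds_unique (hL.congr' hadd) hR
  rw [hJ ha' hb', hJ hb' hc', hJ ha' hc'] at this
  exact this

end SymPot

open SymPot in
theorem potential_of_sym (f : E n → E n) (hf : ContinuousOn f (ball 0 1))
    (G : E n → E n →L[ℝ] E n) (hw : WeakDiff (ball 0 1) f G)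
    (hs : ∀ᵐ x ∂(volume.restrict (ball (0 : E n) 1)), Sym (G x)) :
    ∃ u : E n → ℝ, ∀ x ∈ ball (0 : E n) 1, HasGradientAt u (f x) x := by
  refine ⟨fun x => J f 0 x, fun x hx => ?_⟩
  have h0 : (0 : E n) ∈ ball (0 : E n) 1 := mem_ball_self one_pos
  have hom : ContinuousOn (om f) (ball (0 : E n) 1) :=
    (innerSL ℝ : E n →L[ℝ] E n →L[ℝ] ℝ).continuous.comp_continuousOn hf
  have h1 : HasFDerivWithinAt (fun y => J f x y) (om f x) (ball (0 : E n) 1) x := by
    have h := HasFDerivWithinAt.curveIntegral_segment_source (convex_ball (0 : E n) 1) hom hx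
    refine h.congr_of_eventuallyEq ?_ ?_
    · exact Eventually.of_forall fun y => (J_eq f x y).symm
    · exact (J_eq f x x).symm
  have h2 : HasFDerivAt (fun y => J f x y) (om f x) x := h1.hasFDerivAt (isOpen_ball.mem_nhds hx)
  rw [hasGradientAt_iff_hasFDerivAt]
  have h3 : HasFDerivAt (fun y => J f 0 x + J f x y) (om f x) x := h2.const_add _
  refine h3.congr_of_eventuallyEq ?_
  filter_upwards [isOpen_ball.mem_nhds hx] with y hy
  exact (J_add f hf G hw hs h0 hx hy).symm

end Pool.Agent.H56.QC
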